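import Pool.Agent.U999.GW.Rand

set_option autoImplicit false

/-! # The normalised brackets of random Gauss words -/

namespace Pool.Agent.U999.GW

open Finset Function Pool.Agent.H832R2 Pool.Agent.H832R2.JR Pool.Agent.W642.RS LaurentPolynomial

theorem rho_contact (F : ℤ[T;T⁻¹]) (h : (T 1 - 1 : ℤ[T;T⁻¹]) ^ 3 ∣ F) : rho F = 0 := by
  obtain ⟨c, rfl⟩ := h
  have h1 : rho ((T 1 - 1 : ℤ[T;T⁻¹]) ^ 3) = 0 := by
    rw [map_pow, map_sub, rho_T, map_one]
    unfold mmat
    ext i j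
    fin_cases i <;> fin_cases j <;>
      simp [pow_succ, Matrix.mul_apply, Fin.sum_univ_three, Matrix.one_apply]
  rw [map_mul, h1, zero_mul]

/-- a fixed shadow with a matching of crossing chords -/
theorem fixed {N : ℕ} (G : GaussWord N) (m : ℕ) (u v : Fin m → Fin N) (h : IsMatching G u v)
    (F : ℤ[T;T⁻¹]) [DecidablePred fun w : Fin N → Bool =>
      (T 1 - 1 : ℤ[T;T⁻¹]) ^ 3 ∣ fPoly G w - F] :
    m * (univ.filter fun w : Fin N → Bool =>
      (T 1 - 1 : ℤ[T;T⁻¹]) ^ 3 ∣ fPoly G w - F).card ^ 4 ≤ 32 * (2 ^ N) ^ 4 := by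
  classical
  obtain ⟨hu, hv, huv, hc⟩ := h
  rcases Nat.eq_zero_or_pos m with rfl | hm
  · simp
  obtain ⟨K, hK⟩ := second_moment G (u ⟨0, hm⟩)
  have hinj : Injective (Sum.elim u v) := by
    rintro (a | a) (b | b) hab
    · exact congrArg Sum.inl (hu hab)
    · exact absurd hab (huv a b)
    · exact absurd hab.symm (huv b a)
    · exact congrArg Sum.inr (hv hab)
  have hne : ∀ k, adjm G (u k) (v k) ≠ 0 := by
    intro k
    unfold adjm
    rw [if_pos (hc k)]
    exact one_ne_zero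
  set t : ℤ := (K - rho F 0 2) / 12 with ht
  have h1 := qlo N m (adjm G) (adjm_symm G) u v hinj hne t
  refine le_trans ?_ h1
  gcongr with w
  intro hw
  have h2 := rho_contact _ hw
  rw [map_sub, sub_eq_zero] at h2
  have h3 := hK w
  rw [h2] at h3
  omega

open Classical in
/-- many crossing pairs give a large matching -/
theorem exists_matching {m r : ℕ} (G : GaussWord (m * 2 + r)) :
    ∃ u v : Fin (ncr G) → Fin (m * 2 + r), IsMatching G u v := by
  let S : Finset (Fin m) := univ.filter fun i : Fin m => Crosses G (ch m r i 0) (ch m r i 1)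
  let e : Fin (ncr G) ≃o S := S.orderIsoOfFin rfl
  refine ⟨fun k => ch m r (e k).1 0, fun k => ch m r (e k).1 1, ?_, ?_, ?_, ?_⟩
  · intro a b hab
    exact e.injective (Subtype.ext (ch_inj hab).1)
  · intro a b hab
    exact e.injective (Subtype.ext (ch_inj hab).1)
  · intro a b hab
    exact absurd (ch_inj hab).2 (by decide)
  · intro k
    exact (mem_filter.1 (e k).2).2

open Classical in
theorem bad_real (m r : ℕ) :
    ((univ.filter fun G : GaussWord (m * 2 + r) => ncr G ≤ m / 6).card : ℝ) ≤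
      (19 / 20 : ℝ) ^ m * ((2 * (m * 2 + r)).factorial : ℝ) := by
  have h1 := few_bad m r (m / 6)
  set B := (univ.filter fun G : GaussWord (m * 2 + r) => ncr G ≤ m / 6).card with hB
  have h2 : (B : ℝ) * 6 ^ m ≤ ((2 * (m * 2 + r)).factorial : ℝ) * (2 ^ (m / 6) * 5 ^ m) := by
    exact_mod_cast h1
  have h3 : (2 : ℝ) ^ (m / 6) * (5 / 6) ^ m ≤ (19 / 20) ^ m := by
    have h4 : ((2 : ℝ) ^ (m / 6) * (5 / 6) ^ m) ^ 6 ≤ ((19 / 20) ^ m) ^ 6 := by
      calc ((2 : ℝ) ^ (m / 6) * (5 / 6) ^ m) ^ 6 = 2 ^ (m / 6 * 6) * ((5 / 6) ^ 6) ^ m := by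
            rw [mul_pow, ← pow_mul, ← pow_mul, ← pow_mul]
            ring_nf
        _ ≤ 2 ^ m * ((5 / 6) ^ 6) ^ m := by
            gcongr
            · norm_num
            · omega
        _ = (2 * (5 / 6) ^ 6) ^ m := by rw [mul_pow]
        _ ≤ ((19 / 20) ^ 6) ^ m := by
            gcongr
            norm_num
        _ = ((19 / 20) ^ m) ^ 6 := by rw [← pow_mul, ← pow_mul, mul_comm]
    exact (pow_le_pow_iff_left₀ (by positivity) (by positivity) (by norm_num)).1 h4
  have h5 : (B : ℝ) ≤ ((2 * (m * 2 + r)).factorial : ℝ) * (2 ^ (m / 6) * (5 / 6) ^ m) := by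
    have h6 : (0 : ℝ) < 6 ^ m := by positivity
    rw [div_pow]
    have : ((2 * (m * 2 + r)).factorial : ℝ) * (2 ^ (m / 6) * (5 ^ m / 6 ^ m)) =
        (((2 * (m * 2 + r)).factorial : ℝ) * (2 ^ (m / 6) * 5 ^ m)) / 6 ^ m := by
      field_simp
    rw [this, le_div_iff₀ h6]
    exact h2
  refine h5.trans ?_
  rw [mul_comm]
  gcongr

open Classical in
/-- all but exponentially few Gauss words have at least `N / 12` disjoint pairs of crossing chords -/
theorem words (N : ℕ) :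
    ((univ.filter fun G : GaussWord N =>
      ¬ ∃ (m : ℕ) (u v : Fin m → Fin N), N < 12 * m ∧ IsMatching G u v).card : ℝ) ≤
      2 * (39 / 40 : ℝ) ^ N * ((2 * N).factorial : ℝ) := by
  obtain ⟨m, r, hr, rfl⟩ : ∃ m r, r ≤ 1 ∧ N = m * 2 + r := ⟨N / 2, N % 2, by omega, by omega⟩
  have h1 := bad_real m r
  have h2 : ((univ.filter fun G : GaussWord (m * 2 + r) =>
      ¬ ∃ (k : ℕ) (u v : Fin k → Fin (m * 2 + r)), m * 2 + r < 12 * k ∧ IsMatching G u v).card : ℝ) ≤
      ((univ.filter fun G : GaussWord (m * 2 + r) => ncr G ≤ m / 6).card : ℝ) := by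
    norm_cast
    refine card_le_card ?_
    intro G hG
    rw [mem_filter] at hG ⊢
    refine ⟨hG.1, ?_⟩
    by_contra h
    apply hG.2
    obtain ⟨u, v, huv⟩ := exists_matching G
    exact ⟨ncr G, u, v, by omega, huv⟩
  refine h2.trans (h1.trans ?_)
  gcongr
  calc (19 / 20 : ℝ) ^ m ≤ ((39 / 40 : ℝ) ^ 2) ^ m := by
        gcongr
        norm_num
    _ = (39 / 40 : ℝ) ^ (m * 2) := by rw [← pow_mul, mul_comm]
    _ ≤ 2 * (39 / 40 : ℝ) ^ (m * 2 + r) := by
        rw [pow_add]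
        have h3 : (1 / 2 : ℝ) ≤ (39 / 40 : ℝ) ^ r := by
          interval_cases r <;> norm_num
        have h4 : (0 : ℝ) ≤ (39 / 40 : ℝ) ^ (m * 2) := by positivity
        nlinarith

end Pool.Agent.U999.GW
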