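import Pool.Agent.W642.RS.Total

set_option autoImplicit false

/-! # Random Gauss words have many disjoint pairs of crossing chords -/

namespace Pool.Agent.U999.GW

open Finset Function Pool.Agent.H832R2 Pool.Agent.H832R2.JR Pool.Agent.W642.RS LaurentPolynomial

/-- the four places `f` of the ends of two chords alternate -/
def cr (f : Fin 2 × Bool → ℕ) : Prop :=
  ¬ (JR.Btw (f (0, false)) (f (0, true)) (f (1, false)) ↔
    JR.Btw (f (0, false)) (f (0, true)) (f (1, true)))

/-- the cyclic exchange of three of the four ends of two chords -/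
def rot : Equiv.Perm (Fin 2 × Bool) where
  toFun z := match z with
    | (0, false) => (0, false)
    | (0, true) => (1, false)
    | (1, false) => (1, true)
    | (1, true) => (0, true)
  invFun z := match z with
    | (0, false) => (0, false)
    | (1, false) => (0, true)
    | (1, true) => (1, false)
    | (0, true) => (1, true)
  left_inv := by decide
  right_inv := by decide

/-- the three powers of `rot` -/
def loc (k : Fin 3) : Equiv.Perm (Fin 2 × Bool) := rot ^ (k : ℕ)

theorem one_of_three {a b c d : ℕ} (h1 : a ≠ b) (h2 : a ≠ c) (h3 : a ≠ d) (h4 : b ≠ c)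
    (h5 : b ≠ d) (h6 : c ≠ d) :
    ((¬ (JR.Btw a b c ↔ JR.Btw a b d)) ∧ (JR.Btw a c d ↔ JR.Btw a c b) ∧
      (JR.Btw a d b ↔ JR.Btw a d c)) ∨
    ((JR.Btw a b c ↔ JR.Btw a b d) ∧ (¬ (JR.Btw a c d ↔ JR.Btw a c b)) ∧
      (JR.Btw a d b ↔ JR.Btw a d c)) ∨
    ((JR.Btw a b c ↔ JR.Btw a b d) ∧ (JR.Btw a c d ↔ JR.Btw a c b) ∧
      ¬ (JR.Btw a d b ↔ JR.Btw a d c)) := by
  unfold JR.Btw
  rcases lt_or_gt_of_ne h1 with e1 | e1 <;> rcases lt_or_gt_of_ne h2 with e2 | e2 <;>
    rcases lt_or_gt_of_ne h3 with e3 | e3 <;> rcases lt_or_gt_of_ne h4 with e4 | e4 <;>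
    rcases lt_or_gt_of_ne h5 with e5 | e5 <;> rcases lt_or_gt_of_ne h6 with e6 | e6 <;>
    first
      | (exfalso; clear h1 h2 h3 h4 h5 h6; omega)
      | simp [e1, e2, e3, e4, e5, e6, not_lt_of_gt e1, not_lt_of_gt e2, not_lt_of_gt e3,
          not_lt_of_gt e4, not_lt_of_gt e5, not_lt_of_gt e6]

/-- exactly one of the three ways to join four places by two chords gives crossing chords -/
theorem cr_unique (f : Fin 2 × Bool → ℕ) (hf : Injective f) :
    ∃ a : Fin 3, ∀ k : Fin 3, cr (fun z => f (loc k z)) ↔ k = a := by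
  have hne : ∀ x y, x ≠ y → f x ≠ f y := fun x y h h' => h (hf h')
  have h := one_of_three (hne (0, false) (0, true) (by decide)) (hne (0, false) (1, false) (by decide))
    (hne (0, false) (1, true) (by decide)) (hne (0, true) (1, false) (by decide))
    (hne (0, true) (1, true) (by decide)) (hne (1, false) (1, true) (by decide))
  have e0 : cr (fun z => f (loc 0 z)) ↔ ¬ (JR.Btw (f (0, false)) (f (0, true)) (f (1, false)) ↔
    JR.Btw (f (0, false)) (f (0, true)) (f (1, true))) := Iff.rfl
  have e1 : cr (fun z => f (loc 1 z)) ↔ ¬ (JR.Btw (f (0, false)) (f (1, false)) (f (1, true)) ↔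
    JR.Btw (f (0, false)) (f (1, false)) (f (0, true))) := Iff.rfl
  have e2 : cr (fun z => f (loc 2 z)) ↔ ¬ (JR.Btw (f (0, false)) (f (1, true)) (f (0, true)) ↔
    JR.Btw (f (0, false)) (f (1, true)) (f (1, false))) := Iff.rfl
  rcases h with ⟨h1, h2, h3⟩ | ⟨h1, h2, h3⟩ | ⟨h1, h2, h3⟩
  · refine ⟨0, fun k => ?_⟩
    fin_cases k
    · simp only [Fin.zero_eta, iff_true]; exact e0.2 h1
    · simp only [Fin.mk_one, Fin.reduceEq, iff_false]; exact fun h => e1.1 h h2
    · simp only [Fin.reduceFinMk, Fin.reduceEq, iff_false]; exact fun h => e2.1 h h3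
  · refine ⟨1, fun k => ?_⟩
    fin_cases k
    · simp only [Fin.zero_eta, Fin.reduceEq, iff_false]; exact fun h => e0.1 h h1
    · simp only [Fin.mk_one, iff_true]; exact e1.2 h2
    · simp only [Fin.reduceFinMk, Fin.reduceEq, iff_false]; exact fun h => e2.1 h h3
  · refine ⟨2, fun k => ?_⟩
    fin_cases k
    · simp only [Fin.zero_eta, Fin.reduceEq, iff_false]; exact fun h => e0.1 h h1
    · simp only [Fin.mk_one, Fin.reduceEq, iff_false]; exact fun h => e1.1 h h2
    · simp only [Fin.reduceFinMk, iff_true]; exact e2.2 h3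

/-- the ends of the chords: `m` pairs of chords and `r` further ones -/
abbrev Lab (m r : ℕ) : Type := (Fin m × (Fin 2 × Bool)) ⊕ (Fin r × Bool)

/-- the chords are divided into `m` pairs and `r` further ones -/
def E (m r : ℕ) : Fin (m * 2 + r) × Bool ≃ Lab m r :=
  ((finSumFinEquiv.symm.trans (Equiv.sumCongr finProdFinEquiv.symm (Equiv.refl _))).prodCongr
    (Equiv.refl Bool)).trans
  ((Equiv.sumProdDistrib _ _ _).trans (Equiv.sumCongr (Equiv.prodAssoc _ _ _) (Equiv.refl _)))

/-- the chord number `j` of the pair number `i` -/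
def ch (m r : ℕ) (i : Fin m) (j : Fin 2) : Fin (m * 2 + r) :=
  finSumFinEquiv (Sum.inl (finProdFinEquiv (i, j)))

theorem E_symm (m r : ℕ) (i : Fin m) (j : Fin 2) (b : Bool) :
    (E m r).symm (Sum.inl (i, (j, b))) = (ch m r i j, b) := rfl

theorem ch_inj {m r : ℕ} {i i' : Fin m} {j j' : Fin 2} (h : ch m r i j = ch m r i' j') :
    i = i' ∧ j = j' := by
  unfold ch at h
  have h1 := finProdFinEquiv.injective (Sum.inl_injective (finSumFinEquiv.injective h))
  exact Prod.mk.inj h1

/-- the ends of the chords of the pair `i` are exchanged by `loc (c i)` -/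
def act {m r : ℕ} (c : Fin m → Fin 3) : Equiv.Perm (Lab m r) :=
  Equiv.sumCongr (Equiv.prodCongrRight (fun i => loc (c i))) (Equiv.refl _)

/-- the ends of the chords of the pair `i` are exchanged by `loc (c i)` -/
def tw {m r : ℕ} (c : Fin m → Fin 3) (G : GaussWord (m * 2 + r)) : GaussWord (m * 2 + r) :=
  ((E m r).trans ((act c).trans (E m r).symm)).trans G

theorem tw_apply {m r : ℕ} (c : Fin m → Fin 3) (G : GaussWord (m * 2 + r)) (i : Fin m)
    (z : Fin 2 × Bool) :
    tw c G (ch m r i z.1, z.2) = G ((E m r).symm (Sum.inl (i, loc (c i) z))) := by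
  rw [← E_symm]
  unfold tw act
  simp

theorem tw_bij {m r : ℕ} (c : Fin m → Fin 3) :
    Bijective (tw c : GaussWord (m * 2 + r) → GaussWord (m * 2 + r)) := by
  constructor
  · intro G G' h
    unfold tw at h
    ext x
    have h1 := congrArg (fun e : GaussWord (m * 2 + r) =>
      ((e (((E m r).trans ((act c).trans (E m r).symm)).symm x) : Fin _) : ℕ)) h
    simpa using h1
  · intro G
    refine ⟨((E m r).trans ((act c).trans (E m r).symm)).symm.trans G, ?_⟩
    unfold tw
    ext x
    simp

theorem exists_type {m r : ℕ} (G : GaussWord (m * 2 + r)) : ∃ a : Fin m → Fin 3,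
    ∀ (c : Fin m → Fin 3) (i : Fin m),
      Crosses (tw c G) (ch m r i 0) (ch m r i 1) ↔ c i = a i := by
  have h : ∀ i : Fin m, ∃ a : Fin 3, ∀ k : Fin 3,
      cr (fun z => ((G ((E m r).symm (Sum.inl (i, loc k z))) : Fin _) : ℕ)) ↔ k = a := by
    intro i
    refine cr_unique (fun z => ((G ((E m r).symm (Sum.inl (i, z))) : Fin _) : ℕ)) ?_
    intro z z' hz
    have h1 := (E m r).symm.injective (G.injective (Fin.ext hz))
    have h2 := Sum.inl_injective h1
    exact (Prod.mk.inj h2).2
  choose a ha using h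
  refine ⟨a, fun c i => ?_⟩
  rw [← ha i (c i)]
  unfold Crosses cr
  rw [tw_apply c G i (0, false), tw_apply c G i (0, true), tw_apply c G i (1, false),
    tw_apply c G i (1, true)]

/-- few of the `3 ^ m` functions agree with `a` at few places -/
theorem few_agree (m s : ℕ) (a : Fin m → Fin 3) :
    (univ.filter fun c : Fin m → Fin 3 => (univ.filter fun i => c i = a i).card ≤ s).card * 2 ^ m ≤
      2 ^ s * 5 ^ m := by
  classical
  have h1 : ∀ c : Fin m → Fin 3, (univ.filter fun i => c i = a i).card ≤ s →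
      2 ^ m ≤ 2 ^ s * ∏ i, (if c i = a i then 1 else 2) := by
    intro c hc
    have h2 : ∏ i, (if c i = a i then 1 else 2) = 2 ^ (univ.filter fun i => ¬ c i = a i).card := by
      rw [prod_ite]
      simp
    rw [h2, ← pow_add]
    apply Nat.pow_le_pow_right (by norm_num)
    have h3 := card_filter_add_card_filter_not (s := (univ : Finset (Fin m))) (fun i => c i = a i)
    rw [card_univ, Fintype.card_fin] at h3
    omega
  have h2 : ∑ c : Fin m → Fin 3, ∏ i, (if c i = a i then 1 else 2) = 5 ^ m := by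
    have := Finset.prod_univ_sum (fun _ : Fin m => (univ : Finset (Fin 3)))
      (fun (i : Fin m) (x : Fin 3) => if x = a i then 1 else (2 : ℕ))
    rw [Fintype.piFinset_univ] at this
    rw [← this]
    have h4 : ∀ i : Fin m, ∑ x : Fin 3, (if x = a i then 1 else (2 : ℕ)) = 5 := by
      intro i
      generalize a i = y
      revert y
      decide
    rw [prod_congr rfl (fun i _ => h4 i)]
    simp
  calc _ = ∑ c ∈ univ.filter (fun c : Fin m → Fin 3 =>
        (univ.filter fun i => c i = a i).card ≤ s), 2 ^ m := by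
        rw [sum_const, smul_eq_mul]
    _ ≤ ∑ c ∈ univ.filter (fun c : Fin m → Fin 3 =>
        (univ.filter fun i => c i = a i).card ≤ s), 2 ^ s * ∏ i, (if c i = a i then 1 else 2) :=
        sum_le_sum fun c hc => h1 c (mem_filter.1 hc).2
    _ ≤ ∑ c : Fin m → Fin 3, 2 ^ s * ∏ i, (if c i = a i then 1 else 2) :=
        sum_le_sum_of_subset (filter_subset _ _)
    _ = 2 ^ s * 5 ^ m := by rw [← mul_sum, h2]

open Classical in
/-- the number of the pairs of chords which cross -/
noncomputable def ncr {m r : ℕ} (G : GaussWord (m * 2 + r)) : ℕ :=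
  (univ.filter fun i : Fin m => Crosses G (ch m r i 0) (ch m r i 1)).card

open Classical in
theorem few_bad (m r s : ℕ) :
    (univ.filter fun G : GaussWord (m * 2 + r) => ncr G ≤ s).card * 6 ^ m ≤
      (2 * (m * 2 + r)).factorial * (2 ^ s * 5 ^ m) := by
  have h1 : ∀ c : Fin m → Fin 3,
      (univ.filter fun G : GaussWord (m * 2 + r) => ncr (tw c G) ≤ s).card =
      (univ.filter fun G : GaussWord (m * 2 + r) => ncr G ≤ s).card := by
    intro c
    rw [card_filter, card_filter]
    exact (tw_bij c).sum_comp (fun G => if ncr G ≤ s then 1 else 0)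
  have h2 : 3 ^ m * (univ.filter fun G : GaussWord (m * 2 + r) => ncr G ≤ s).card =
      ∑ G : GaussWord (m * 2 + r), (univ.filter fun c : Fin m → Fin 3 => ncr (tw c G) ≤ s).card := by
    have h3 : ∑ c : Fin m → Fin 3,
        (univ.filter fun G : GaussWord (m * 2 + r) => ncr (tw c G) ≤ s).card =
        3 ^ m * (univ.filter fun G : GaussWord (m * 2 + r) => ncr G ≤ s).card := by
      rw [sum_congr rfl (fun c _ => h1 c), sum_const, card_univ, smul_eq_mul]
      simp
    rw [← h3]
    simp only [card_filter]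
    exact sum_comm
  have h3 : ∀ G : GaussWord (m * 2 + r),
      (univ.filter fun c : Fin m → Fin 3 => ncr (tw c G) ≤ s).card * 2 ^ m ≤ 2 ^ s * 5 ^ m := by
    intro G
    obtain ⟨a, ha⟩ := exists_type G
    have h4 : ∀ c : Fin m → Fin 3, ncr (tw c G) = (univ.filter fun i => c i = a i).card := by
      intro c
      unfold ncr
      congr 1
      ext i
      rw [mem_filter, mem_filter, ha c i]
    simp only [h4]
    exact few_agree m s a
  have hcard : Fintype.card (GaussWord (m * 2 + r)) = (2 * (m * 2 + r)).factorial := by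
    have hc : Fintype.card (Fin (m * 2 + r) × Bool) = 2 * (m * 2 + r) := by
      rw [Fintype.card_prod, Fintype.card_fin, Fintype.card_bool, mul_comm]
    rw [Fintype.card_equiv (Fintype.equivFinOfCardEq hc), hc]
  calc _ = (3 ^ m * (univ.filter fun G : GaussWord (m * 2 + r) => ncr G ≤ s).card) * 2 ^ m := by
        rw [show (6 : ℕ) = 3 * 2 by norm_num, mul_pow]; ring
    _ = ∑ G : GaussWord (m * 2 + r),
        (univ.filter fun c : Fin m → Fin 3 => ncr (tw c G) ≤ s).card * 2 ^ m := by
        rw [h2, sum_mul]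
    _ ≤ ∑ _G : GaussWord (m * 2 + r), 2 ^ s * 5 ^ m := sum_le_sum fun G _ => h3 G
    _ = _ := by rw [sum_const, card_univ, hcard, smul_eq_mul]

end Pool.Agent.U999.GW
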